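import Pool.Agent.Q63.H2.W

/-! Project H2 (helper76), job H2-C: if the Gaussian measure of `t P` does not depend on `t` then
`P` is a null set or a cone. -/

set_option autoImplicit false

open Set Filter Topology MeasureTheory
open scoped Pointwise ENNReal

namespace Pool.Agent.Q63.H2

section

variable {F : Type*} [NormedAddCommGroup F] [InnerProductSpace ℝ F] [FiniteDimensional ℝ F]
  [MeasurableSpace F] [BorelSpace F]

theorem int_pos (G : Set F) (hG : volume G ≠ 0) : 0 < ∫ x in G, Real.exp (-‖x‖ ^ 2) := by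
  rw [setIntegral_pos_iff_support_of_nonneg_ae
    (Eventually.of_forall fun x => (Real.exp_pos _).le) gintF1.integrableOn]
  have : Function.support (fun x : F => Real.exp (-‖x‖ ^ 2)) = univ := by
    ext x
    simp [Real.exp_ne_zero]
  rw [this, univ_inter]
  exact pos_iff_ne_zero.2 hG

theorem wG_one (P : Set F) : Pool.Agent.Q76.H2.wG P 1 = ∫ x in P, Real.exp (-‖x‖ ^ 2) := by
  unfold Pool.Agent.Q76.H2.wG
  simp

theorem wG_tendsto (P : Set F) (hP : IsClosed P) (h0 : (0 : F) ∉ P) :
    Tendsto (Pool.Agent.Q76.H2.wG P) atTop (𝓝 0) := by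
  have h1 : Tendsto (fun t : ℝ => ∫ x : F, indicator {x : F | t⁻¹ • x ∈ P}
      (fun x => Real.exp (-‖x‖ ^ 2)) x) atTop (𝓝 (∫ _ : F, (0 : ℝ))) := by
    refine tendsto_integral_filter_of_dominated_convergence (fun x : F => Real.exp (-‖x‖ ^ 2))
      ?_ ?_ gintF1 ?_
    · refine Eventually.of_forall fun t => ?_
      exact ((by fun_prop : Continuous fun x : F => Real.exp (-‖x‖ ^ 2)).measurable.indicator
        (meas P hP t)).aestronglyMeasurable
    · refine Eventually.of_forall fun t => Eventually.of_forall fun x => ?_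
      rw [Real.norm_eq_abs, abs_of_nonneg (indicator_nonneg (fun _ _ => (Real.exp_pos _).le) _)]
      exact indicator_le_self' (fun _ _ => (Real.exp_pos _).le) _
    · refine Eventually.of_forall fun x => ?_
      have h2 : Tendsto (fun t : ℝ => t⁻¹ • x) atTop (𝓝 0) := by
        have := (tendsto_inv_atTop_zero (𝕜 := ℝ)).smul_const x
        simpa using this
      have h3 : ∀ᶠ t : ℝ in atTop, t⁻¹ • x ∈ Pᶜ := h2 (hP.isOpen_compl.mem_nhds h0)
      refine Tendsto.congr' ?_ tendsto_const_nhds
      filter_upwards [h3] with t ht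
      rw [indicator_of_notMem]
      exact ht
  rw [integral_zero] at h1
  refine h1.congr fun t => ?_
  unfold Pool.Agent.Q76.H2.wG
  rw [integral_indicator (meas P hP t)]

end

theorem aC (F : Type) [NormedAddCommGroup F] [InnerProductSpace ℝ F] [FiniteDimensional ℝ F]
    [MeasurableSpace F] [BorelSpace F] : Pool.Agent.Q76.H2.S_C F := by
  intro P hc hP hconst
  by_cases hv : volume P = 0
  · exact Or.inl hv
  right
  have hpos : 0 < Pool.Agent.Q76.H2.wG P 1 := by
    rw [wG_one]; exact int_pos P hv
  have h0 : (0 : F) ∈ P := by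
    by_contra hcon
    have h1 := wG_tendsto P hP hcon
    have h2 : Tendsto (Pool.Agent.Q76.H2.wG P) atTop (𝓝 (Pool.Agent.Q76.H2.wG P 1)) := by
      refine Tendsto.congr' ?_ tendsto_const_nhds
      filter_upwards [eventually_gt_atTop 0] with t ht
      exact hconst 1 t one_pos ht
    have := tendsto_nhds_unique h1 h2
    linarith
  have hint : (interior P).Nonempty := by
    by_contra hcon
    rw [not_nonempty_iff_eq_empty] at hcon
    have h1 := hc.addHaar_frontier volume
    rw [frontier, hcon, sdiff_empty, hP.closure_eq] at h1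
    exact hv h1
  have hcl : P ⊆ closure (interior P) := by
    rw [hc.closure_interior_eq_closure_of_nonempty_interior hint]
    exact subset_closure
  have hsmall : ∀ p ∈ P, ∀ s : ℝ, 0 ≤ s → s ≤ 1 → s • p ∈ P := by
    intro p hp s hs0 hs1
    have := hc hp h0 hs0 (by linarith : (0 : ℝ) ≤ 1 - s) (by ring)
    simpa using this
  intro p hp s hs
  rcases le_or_gt s 1 with h | h
  · exact hsmall p hp s hs h
  · by_contra hcon
    have hs0 : s ≠ 0 := by linarith
    set G : Set F := {x | s⁻¹ • x ∈ interior P} ∩ Pᶜ with hG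
    have hGo : IsOpen G :=
      (isOpen_interior.preimage (continuous_const_smul (s⁻¹))).inter hP.isOpen_compl
    have hGne : G.Nonempty := by
      have hU : IsOpen {x : F | s • x ∈ Pᶜ} := hP.isOpen_compl.preimage (continuous_const_smul s)
      obtain ⟨x, hx1, hx2⟩ := mem_closure_iff.1 (hcl hp) _ hU hcon
      refine ⟨s • x, ?_, hx1⟩
      rw [mem_ofPred_eq, inv_smul_smul₀ hs0]
      exact hx2
    have hGv : volume G ≠ 0 := (hGo.measure_pos volume hGne).ne'
    have h1 := int_pos G hGv
    have hsub : P ∪ G ⊆ {x : F | s⁻¹ • x ∈ P} := by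
      rintro x (hx | hx)
      · exact hsmall x hx _ (by positivity) (inv_le_one_of_one_le₀ h.le)
      · have : s⁻¹ • x ∈ interior P := hx.1
        exact (interior_subset this : s⁻¹ • x ∈ P)
    have hdis : Disjoint P G := by
      rw [disjoint_left]
      intro x hx hx'
      exact hx'.2 hx
    have h2 : ∫ x in P ∪ G, Real.exp (-‖x‖ ^ 2) =
        (∫ x in P, Real.exp (-‖x‖ ^ 2)) + ∫ x in G, Real.exp (-‖x‖ ^ 2) :=
      setIntegral_union hdis hGo.measurableSet gintF1.integrableOn gintF1.integrableOn
    have h3 : ∫ x in P ∪ G, Real.exp (-‖x‖ ^ 2) ≤ Pool.Agent.Q76.H2.wG P s := by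
      unfold Pool.Agent.Q76.H2.wG
      exact setIntegral_mono_set gintF1.integrableOn
        (Eventually.of_forall fun x => (Real.exp_pos _).le) (LE.le.eventuallyLE hsub)
    have h4 := hconst 1 s one_pos (by linarith)
    rw [wG_one] at h4
    linarith

end Pool.Agent.Q63.H2
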