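import Pool.Agent.Q76.H2.Stm

/-! Project H2 (helper76), job H2-U: unimodal functions and Laplace type integrals. -/

set_option autoImplicit false

open Set Filter Topology MeasureTheory

namespace Pool.Agent.Q63.H2

theorem gint (s : ℝ) (hs : 0 < s) :
    Integrable (fun x : ℝ => Real.exp (-(s * x ^ 2))) (volume.restrict (Ioi 0)) := by
  have := (integrable_exp_neg_mul_sq hs).restrict (s := Ioi (0 : ℝ))
  refine this.congr (Eventually.of_forall fun x => ?_)
  simp only [neg_mul]

theorem gint' (s B : ℝ) (hs : 0 < s) (g : ℝ → ℝ) (hg : ContinuousOn g (Ioi 0))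
    (hB : ∀ x, |g x| ≤ B) :
    Integrable (fun x : ℝ => Real.exp (-(s * x ^ 2)) * g x) (volume.restrict (Ioi 0)) := by
  have h1 : AEStronglyMeasurable g (volume.restrict (Ioi 0)) :=
    hg.aestronglyMeasurable measurableSet_Ioi
  have h2 := (gint s hs).bdd_mul (c := B) h1 (Eventually.of_forall fun x => by
    rw [Real.norm_eq_abs]; exact hB x)
  refine h2.congr (Eventually.of_forall fun x => ?_)
  simp only [mul_comm]

/-- the sign pattern and the two integral inequalities force the function to vanish -/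
theorem zero_of (δ : ℝ → ℝ) (B s₁ s₂ : ℝ) (hc : ContinuousOn δ (Ioi 0)) (hB : ∀ x, |δ x| ≤ B)
    (hs1 : 0 < s₁) (hs : s₁ < s₂)
    (hsign : ∀ x x', 0 < x → x < x' → δ x < 0 → δ x' ≤ 0)
    (h1 : 0 ≤ ∫ x in Ioi (0 : ℝ), Real.exp (-(s₁ * x ^ 2)) * δ x)
    (h2 : ∫ x in Ioi (0 : ℝ), Real.exp (-(s₂ * x ^ 2)) * δ x ≤ 0) : ∀ x, 0 < x → δ x = 0 := by
  have hd : 0 < s₂ - s₁ := by linarith
  obtain ⟨K, x₀, hK, hpos⟩ : ∃ K x₀ : ℝ, 0 ≤ K ∧ ∀ x, 0 < x →
      0 ≤ (Real.exp (-((s₂ - s₁) * x ^ 2)) - K) * δ x ∧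
      (x ≠ x₀ → (Real.exp (-((s₂ - s₁) * x ^ 2)) - K) ≠ 0) := by
    by_cases hall : ∀ x, 0 < x → 0 ≤ δ x
    · refine ⟨0, 0, le_rfl, fun x hx => ⟨?_, fun _ => ?_⟩⟩
      · rw [sub_zero]; exact mul_nonneg (Real.exp_pos _).le (hall x hx)
      · rw [sub_zero]; exact (Real.exp_pos _).ne'
    · rw [not_forall] at hall
      obtain ⟨y, hy⟩ := hall
      rw [Classical.not_imp, not_le] at hy
      set N := {x : ℝ | 0 < x ∧ δ x < 0} with hN
      have hNne : N.Nonempty := ⟨y, hy⟩
      have hNbd : BddBelow N := ⟨0, fun x hx => hx.1.le⟩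
      set x₀ := sInf N with hx₀
      have hx0 : 0 ≤ x₀ := le_csInf hNne fun x hx => hx.1.le
      have hmono : ∀ u v : ℝ, 0 ≤ u → u < v →
          Real.exp (-((s₂ - s₁) * v ^ 2)) < Real.exp (-((s₂ - s₁) * u ^ 2)) := by
        intro u v hu huv
        apply Real.exp_lt_exp.2
        have : u ^ 2 < v ^ 2 := by nlinarith
        nlinarith
      refine ⟨Real.exp (-((s₂ - s₁) * x₀ ^ 2)), x₀, (Real.exp_pos _).le, fun x hx => ?_⟩
      rcases lt_trichotomy x x₀ with hlt | heq | hgt
      · have h3 := hmono x x₀ hx.le hlt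
        have h4 : 0 ≤ δ x := by
          by_contra hcon
          rw [not_le] at hcon
          have : x₀ ≤ x := csInf_le hNbd ⟨hx, hcon⟩
          linarith
        exact ⟨mul_nonneg (by linarith) h4, fun _ => by linarith⟩
      · rw [heq]; simp
      · have h3 := hmono x₀ x hx0 hgt
        obtain ⟨z, hz, hzx⟩ := exists_lt_of_csInf_lt hNne hgt
        have h4 : δ x ≤ 0 := hsign z x hz.1 hzx hz.2
        exact ⟨mul_nonneg_of_nonpos_of_nonpos (by linarith) h4, fun _ => by linarith⟩
  have i1 := gint' s₁ B hs1 δ hc hB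
  have i2 := gint' s₂ B (by linarith) δ hc hB
  have e : ∀ x : ℝ, Real.exp (-(s₁ * x ^ 2)) * ((Real.exp (-((s₂ - s₁) * x ^ 2)) - K) * δ x) =
      Real.exp (-(s₂ * x ^ 2)) * δ x - K * (Real.exp (-(s₁ * x ^ 2)) * δ x) := by
    intro x
    have : Real.exp (-(s₂ * x ^ 2)) = Real.exp (-(s₁ * x ^ 2)) * Real.exp (-((s₂ - s₁) * x ^ 2)) := by
      rw [← Real.exp_add]; congr 1; ring
    rw [this]; ring
  set G : ℝ → ℝ := fun x => Real.exp (-(s₁ * x ^ 2)) *
    ((Real.exp (-((s₂ - s₁) * x ^ 2)) - K) * δ x) with hG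
  have hGi : Integrable G (volume.restrict (Ioi 0)) := by
    refine (i2.sub (i1.const_mul K)).congr (Eventually.of_forall fun x => ?_)
    simp only [hG, e x, Pi.sub_apply]
  have hGint : ∫ x in Ioi (0 : ℝ), G x ≤ 0 := by
    have e1 : ∫ x in Ioi (0 : ℝ), G x = (∫ x in Ioi (0 : ℝ), Real.exp (-(s₂ * x ^ 2)) * δ x) -
        K * ∫ x in Ioi (0 : ℝ), Real.exp (-(s₁ * x ^ 2)) * δ x := by
      rw [← integral_const_mul, ← integral_sub i2 (i1.const_mul K)]
      refine integral_congr_ae (Eventually.of_forall fun x => ?_)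
      simp only [hG, e x]
    rw [e1]
    have := mul_nonneg hK h1
    linarith
  have hG0 : ∀ᵐ x ∂(volume.restrict (Ioi (0 : ℝ))), 0 ≤ G x := by
    filter_upwards [ae_restrict_mem measurableSet_Ioi] with x hx
    exact mul_nonneg (Real.exp_pos _).le (hpos x hx).1
  have hGz : G =ᵐ[volume.restrict (Ioi (0 : ℝ))] 0 := by
    rw [← integral_eq_zero_iff_of_nonneg_ae hG0 hGi]
    exact le_antisymm hGint (integral_nonneg_of_ae hG0)
  have hδ : δ =ᵐ[volume.restrict (Ioi (0 : ℝ))] fun _ => (0 : ℝ) := by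
    have hne : ∀ᵐ x ∂(volume.restrict (Ioi (0 : ℝ))), x ≠ x₀ := by
      have : (volume.restrict (Ioi (0 : ℝ))) {x₀} = 0 :=
        le_antisymm ((Measure.restrict_apply_le _ _).trans (by simp)) zero_le'
      exact compl_mem_ae_iff.2 this
    filter_upwards [hGz, hne, ae_restrict_mem measurableSet_Ioi] with x hx hx2 hx3
    simp only [hG, Pi.zero_apply] at hx
    rcases mul_eq_zero.1 hx with h | h
    · exact absurd h (Real.exp_pos _).ne'
    · rcases mul_eq_zero.1 h with h | h
      · exact absurd h ((hpos x hx3).2 hx2)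
      · exact h
  have := Measure.eqOn_open_of_ae_eq hδ isOpen_Ioi hc continuousOn_const
  exact fun x hx => this hx

theorem a : Pool.Agent.Q76.H2.S_U := by
  intro w B hw hB hq a b c ha hab hbc hVab hVbc x y hx hy
  have hB0 : 0 ≤ B := (hB 0).1.trans (hB 0).2
  set V : ℝ → ℝ := fun t => ∫ u in Ioi (0 : ℝ), Real.exp (-u ^ 2) * w (t * u) with hV
  have hwc : ∀ t : ℝ, 0 < t → ContinuousOn (fun u => w (t * u)) (Ioi 0) := by
    intro t ht
    refine hw.comp (continuous_const.mul continuous_id).continuousOn fun u hu => ?_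
    exact mul_pos ht hu
  have hwb : ∀ t x : ℝ, |w (t * x)| ≤ B := fun t x => by
    rw [abs_of_nonneg (hB _).1]; exact (hB _).2
  have hVi : ∀ t : ℝ, 0 < t →
      Integrable (fun u : ℝ => Real.exp (-u ^ 2) * w (t * u)) (volume.restrict (Ioi 0)) := by
    intro t ht
    refine (gint' 1 B one_pos _ (hwc t ht) (hwb t)).congr (Eventually.of_forall fun x => ?_)
    simp only [one_mul]
  have hVc : ContinuousOn V (Ioi 0) := by
    refine continuousOn_of_dominated (bound := fun u => B * Real.exp (-(1 * u ^ 2)))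
      (fun t ht => (hVi t ht).aestronglyMeasurable) (fun t _ => Eventually.of_forall fun u => ?_)
      ((gint 1 one_pos).const_mul B) ?_
    · rw [Real.norm_eq_abs, abs_mul, abs_of_pos (Real.exp_pos _), mul_comm, one_mul]
      exact mul_le_mul_of_nonneg_right (hwb t u) (Real.exp_pos _).le
    · filter_upwards [ae_restrict_mem measurableSet_Ioi] with u hu
      refine continuousOn_const.mul (hw.comp (continuous_id.mul continuous_const).continuousOn ?_)
      intro t ht
      exact Set.mem_Ioi.2 (mul_pos (Set.mem_Ioi.1 ht) (Set.mem_Ioi.1 hu))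
  -- an interior minimum point
  obtain ⟨m, ham, hmc, hmin⟩ : ∃ m, a < m ∧ m < c ∧ ∀ t ∈ Icc a c, V m ≤ V t := by
    have hcI : ContinuousOn V (Icc a c) := hVc.mono fun t ht => lt_of_lt_of_le ha ht.1
    obtain ⟨m, hm, hmin⟩ := isCompact_Icc.exists_isMinOn (nonempty_Icc.2 (by linarith)) hcI
    have hmin' : ∀ t ∈ Icc a c, V m ≤ V t := fun t ht => hmin ht
    rcases eq_or_lt_of_le hm.1 with h1 | h1
    · refine ⟨b, hab, hbc, fun t ht => ?_⟩
      have := hmin' t ht
      rw [← h1] at this
      have e : V a = V b := hVab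
      linarith
    · rcases eq_or_lt_of_le hm.2 with h2 | h2
      · refine ⟨b, hab, hbc, fun t ht => ?_⟩
        have := hmin' t ht
        rw [h2] at this
        have e : V b = V c := hVbc
        linarith
      · exact ⟨m, h1, h2, hmin'⟩
  have hm0 : 0 < m := by linarith
  -- the increments vanish
  have hkey : ∀ r : ℝ, 1 < r → a * r ≤ m → m * r ≤ c → ∀ x, 0 < x → w (r * x) = w x := by
    intro r hr har hrc x hx
    have hr0 : 0 < r := by linarith
    set δ : ℝ → ℝ := fun x => w (r * x) - w x with hδ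
    have hδc : ContinuousOn δ (Ioi 0) := (hwc r hr0).sub hw
    have hδb : ∀ x, |δ x| ≤ B := by
      intro x
      rw [abs_le]
      have h1 := hB (r * x)
      have h2 := hB x
      simp only [hδ]
      constructor <;> linarith
    have hdiff : ∀ c' : ℝ, 0 < c' → V (r * c') - V c' =
        (1 / c') * ∫ x in Ioi (0 : ℝ), Real.exp (-((1 / c' ^ 2) * x ^ 2)) * δ x := by
      intro c' hc'
      have e1 : V (r * c') - V c' = ∫ u in Ioi (0 : ℝ), Real.exp (-u ^ 2) * δ (c' * u) := by
        simp only [hV]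
        rw [← integral_sub (hVi _ (by positivity)) (hVi _ hc')]
        refine integral_congr_ae (Eventually.of_forall fun u => ?_)
        simp only [hδ]
        rw [← mul_assoc]; ring
      rw [e1]
      have e2 := integral_comp_mul_left_Ioi
        (fun x => Real.exp (-((1 / c' ^ 2) * x ^ 2)) * δ x) 0 hc'
      rw [mul_zero] at e2
      rw [smul_eq_mul] at e2
      rw [one_div, ← e2]
      refine integral_congr_ae (Eventually.of_forall fun u => ?_)
      simp only
      congr 2
      field_simp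
    have hA1 : 0 ≤ ∫ x in Ioi (0 : ℝ), Real.exp (-((1 / m ^ 2) * x ^ 2)) * δ x := by
      have h1 := hdiff m hm0
      have h2 := hmin (r * m) ⟨by nlinarith, by linarith⟩
      have h3 : 0 ≤ (1 / m) * ∫ x in Ioi (0 : ℝ), Real.exp (-((1 / m ^ 2) * x ^ 2)) * δ x := by
        rw [← h1]; linarith
      exact nonneg_of_mul_nonneg_right h3 (by positivity)
    have hA2 : ∫ x in Ioi (0 : ℝ), Real.exp (-((1 / (m / r) ^ 2) * x ^ 2)) * δ x ≤ 0 := by
      have h0 : 0 < m / r := by positivity
      have h1 := hdiff (m / r) h0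
      have e : r * (m / r) = m := by field_simp
      rw [e] at h1
      have h4 : m / r ≤ m := by rw [div_le_iff₀ hr0]; nlinarith
      have h2 := hmin (m / r) ⟨by rw [le_div_iff₀ hr0]; exact har, by linarith⟩
      have h3 : (1 / (m / r)) * ∫ x in Ioi (0 : ℝ), Real.exp (-((1 / (m / r) ^ 2) * x ^ 2)) * δ x
          ≤ 0 := by
        rw [← h1]; linarith
      have h5 : 0 < 1 / (m / r) := by positivity
      by_contra hcon
      rw [not_le] at hcon
      have := mul_pos h5 hcon
      linarith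
    have hs1 : 0 < 1 / m ^ 2 := by positivity
    have hs12 : 1 / m ^ 2 < 1 / (m / r) ^ 2 := by
      apply one_div_lt_one_div_of_lt (by positivity)
      have h4 : m / r < m := by rw [div_lt_iff₀ hr0]; nlinarith
      have h5 : 0 < m / r := by positivity
      nlinarith
    have hsign : ∀ x x', 0 < x → x < x' → δ x < 0 → δ x' ≤ 0 := by
      intro x x' hx hxx' hneg
      simp only [hδ] at hneg ⊢
      have h1 : w (r * x) < w x := by linarith
      have h2 : ∀ z, r * x ≤ z → w z ≤ w (r * x) := by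
        intro z hz
        have h3 := hq x (r * x) z hx (by nlinarith) hz
        rcases min_le_iff.1 h3 with h4 | h4
        · linarith
        · exact h4
      have h3 := h2 (r * x') (by nlinarith)
      have h4 := hq x x' (r * x') hx hxx'.le (by nlinarith)
      rcases min_le_iff.1 h4 with h5 | h5
      · linarith
      · linarith
    have := zero_of δ B _ _ hδc hδb hs1 hs12 hsign hA1 hA2 x hx
    simp only [hδ] at this
    linarith
  -- iteration
  obtain ⟨r₀, hr0, hr1⟩ : ∃ r₀ : ℝ, 1 < r₀ ∧ ∀ r, 1 < r → r < r₀ → a * r ≤ m ∧ m * r ≤ c := by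
    refine ⟨min (m / a) (c / m), lt_min ?_ ?_, fun r _ hr => ?_⟩
    · rw [lt_div_iff₀ ha]; linarith
    · rw [lt_div_iff₀ hm0]; linarith
    · have h1 := (lt_min_iff.1 hr).1
      have h2 := (lt_min_iff.1 hr).2
      rw [lt_div_iff₀ ha] at h1
      rw [lt_div_iff₀ hm0] at h2
      constructor <;> linarith
  have hlt : ∀ x y : ℝ, 0 < x → x < y → w x = w y := by
    intro x y hx hxy
    set L := Real.log (y / x) with hL
    have hyx : 1 < y / x := by rw [lt_div_iff₀ hx]; linarith
    have hL0 : 0 < L := Real.log_pos hyx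
    have hlr : 0 < Real.log r₀ := Real.log_pos hr0
    obtain ⟨n, hn⟩ := exists_nat_gt (L / Real.log r₀)
    have hn0 : (0 : ℝ) < n := lt_trans (by positivity) hn
    set r := Real.exp (L / n) with hr
    have hr1' : 1 < r := Real.one_lt_exp_iff.2 (by positivity)
    have hrr : r < r₀ := by
      rw [hr, ← Real.lt_log_iff_exp_lt (by linarith), div_lt_iff₀ hn0]
      rw [div_lt_iff₀ hlr] at hn
      linarith
    obtain ⟨k1, k2⟩ := hr1 r hr1' hrr
    have hit : ∀ k : ℕ, w (r ^ k * x) = w x := by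
      intro k
      induction k with
      | zero => simp
      | succ k ih =>
        rw [← ih, pow_succ', mul_assoc]
        exact hkey r hr1' k1 k2 _ (by positivity)
    have := hit n
    have e : r ^ n * x = y := by
      rw [hr, ← Real.exp_nat_mul, mul_div_cancel₀ _ hn0.ne', hL, Real.exp_log (by linarith)]
      field_simp
    rw [e] at this
    exact this.symm
  rcases lt_trichotomy x y with h | h | h
  · exact hlt x y hx h
  · rw [h]
  · exact (hlt y x hy h).symm

end Pool.Agent.Q63.H2
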