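import Pool.Agent.Q76.H2.Stm

/-! Project H2 (helper76), job H2-W: the Gaussian measure of `t P` is continuous and
quasi-concave in `t`. -/

set_option autoImplicit false

open Set Filter Topology MeasureTheory
open scoped Pointwise ENNReal

namespace Pool.Agent.Q63.H2

section

variable {F : Type*} [NormedAddCommGroup F] [InnerProductSpace ℝ F] [FiniteDimensional ℝ F]
  [MeasurableSpace F] [BorelSpace F]

theorem gintF (b : ℝ) (hb : 0 < b) : Integrable (fun x : F => Real.exp (-(b * ‖x‖ ^ 2))) := by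
  have h := GaussianFourier.integral_rexp_neg_mul_sq_norm (V := F) hb
  have h2 : ∫ v : F, Real.exp (-b * ‖v‖ ^ 2) ≠ 0 := by
    rw [h]; positivity
  have h3 := Integrable.of_integral_ne_zero h2
  refine h3.congr (Eventually.of_forall fun x => ?_)
  simp only [neg_mul]

theorem gintF1 : Integrable (fun x : F => Real.exp (-‖x‖ ^ 2)) := by
  refine (gintF (F := F) 1 one_pos).congr (Eventually.of_forall fun x => ?_)
  simp only [one_mul]

theorem set_eq (P : Set F) (t : ℝ) (ht : 0 < t) : {x : F | t⁻¹ • x ∈ P} = t • P := by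
  ext x
  rw [mem_setOf_eq, mem_smul_set_iff_inv_smul_mem₀ ht.ne']

theorem meas (P : Set F) (hP : IsClosed P) (t : ℝ) : MeasurableSet {x : F | t⁻¹ • x ∈ P} :=
  (hP.preimage (continuous_const_smul (t⁻¹))).measurableSet

theorem wG_eq (P : Set F) (t : ℝ) (ht : 0 < t) :
    Pool.Agent.Q76.H2.wG P t = t ^ Module.finrank ℝ F * ∫ x in P, Real.exp (-(t ^ 2 * ‖x‖ ^ 2)) := by
  unfold Pool.Agent.Q76.H2.wG
  rw [set_eq P t ht]
  have h := Measure.setIntegral_comp_smul_of_pos (μ := (volume : Measure F))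
    (fun x : F => Real.exp (-‖x‖ ^ 2)) P ht
  have e : ∫ x in P, Real.exp (-(t ^ 2 * ‖x‖ ^ 2)) = ∫ x in P, Real.exp (-‖t • x‖ ^ 2) := by
    refine integral_congr_ae (Eventually.of_forall fun x => ?_)
    simp only
    rw [norm_smul, mul_pow, Real.norm_eq_abs, sq_abs]
  rw [e, h, smul_eq_mul, ← mul_assoc, mul_inv_cancel₀ (by positivity), one_mul]

theorem wG_cont (P : Set F) : ContinuousOn (Pool.Agent.Q76.H2.wG P) (Ioi 0) := by
  have h1 : ContinuousOn (fun t : ℝ => t ^ Module.finrank ℝ F *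
      ∫ x in P, Real.exp (-(t ^ 2 * ‖x‖ ^ 2))) (Ioi 0) := by
    refine (continuous_pow _).continuousOn.mul ?_
    intro t₀ ht₀
    have ht₀' : 0 < t₀ := ht₀
    apply ContinuousAt.continuousWithinAt
    refine continuousAt_of_dominated (bound := fun x : F => Real.exp (-((t₀ / 2) ^ 2 * ‖x‖ ^ 2)))
      ?_ ?_ ?_ ?_
    · refine Eventually.of_forall fun t => ?_
      exact (by fun_prop : Continuous fun x : F => Real.exp (-(t ^ 2 * ‖x‖ ^ 2))).aestronglyMeasurable
    · filter_upwards [lt_mem_nhds (show t₀ / 2 < t₀ by linarith)] with t ht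
      refine Eventually.of_forall fun x => ?_
      rw [Real.norm_eq_abs, abs_of_pos (Real.exp_pos _)]
      apply Real.exp_le_exp.2
      have h2 : (t₀ / 2) ^ 2 ≤ t ^ 2 := by nlinarith
      have := mul_le_mul_of_nonneg_right h2 (sq_nonneg ‖x‖)
      linarith
    · exact (gintF ((t₀ / 2) ^ 2) (by positivity)).restrict
    · refine Eventually.of_forall fun x => ?_
      fun_prop
  exact h1.congr fun t ht => wG_eq P t ht

theorem wG_rng (P : Set F) (t : ℝ) :
    0 ≤ Pool.Agent.Q76.H2.wG P t ∧ Pool.Agent.Q76.H2.wG P t ≤ ∫ x : F, Real.exp (-‖x‖ ^ 2) := by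
  unfold Pool.Agent.Q76.H2.wG
  constructor
  · exact integral_nonneg fun x => (Real.exp_pos _).le
  · exact setIntegral_le_integral gintF1 (Eventually.of_forall fun x => (Real.exp_pos _).le)

/-- the lower integral -/
noncomputable def LI (P : Set F) (t : ℝ) : ℝ≥0∞ :=
  ∫⁻ v : F, indicator {x : F | t⁻¹ • x ∈ P} (fun v => ENNReal.ofReal (Real.exp (-‖v‖ ^ 2))) v

theorem LI_eq (P : Set F) (hP : IsClosed P) (t : ℝ) :
    ENNReal.ofReal (Pool.Agent.Q76.H2.wG P t) = LI P t := by
  unfold Pool.Agent.Q76.H2.wG LI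
  rw [ofReal_integral_eq_lintegral_ofReal gintF1.restrict
    (Eventually.of_forall fun x => (Real.exp_pos _).le), lintegral_indicator (meas P hP t)]

theorem norm_cvx (s : ℝ) (h0 : 0 < s) (h1 : s < 1) (u v : F) :
    ‖(1 - s) • u + s • v‖ ^ 2 ≤ (1 - s) * ‖u‖ ^ 2 + s * ‖v‖ ^ 2 := by
  have h2 : ‖(1 - s) • u + s • v‖ ≤ (1 - s) * ‖u‖ + s * ‖v‖ := by
    refine (norm_add_le _ _).trans (le_of_eq ?_)
    rw [norm_smul, norm_smul, Real.norm_of_nonneg (by linarith), Real.norm_of_nonneg h0.le]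
  have h3 : ‖(1 - s) • u + s • v‖ ^ 2 ≤ ((1 - s) * ‖u‖ + s * ‖v‖) ^ 2 :=
    pow_le_pow_left₀ (norm_nonneg _) h2 2
  refine h3.trans ?_
  have : 0 ≤ s * (1 - s) * (‖u‖ - ‖v‖) ^ 2 :=
    mul_nonneg (mul_nonneg h0.le (by linarith)) (sq_nonneg _)
  nlinarith

theorem LI_pl (P : Set F) (hc : Convex ℝ P) (hP : IsClosed P) (x z s : ℝ) (hx : 0 < x) (hz : 0 < z)
    (h0 : 0 < s) (h1 : s < 1) :
    LI P x ^ (1 - s) * LI P z ^ s ≤ LI P ((1 - s) * x + s * z) := by
  have h1s : 0 < 1 - s := by linarith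
  have hmeas : ∀ t : ℝ, Measurable (indicator {x : F | t⁻¹ • x ∈ P}
      (fun v : F => ENNReal.ofReal (Real.exp (-‖v‖ ^ 2)))) := by
    intro t
    refine Measurable.indicator ?_ (meas P hP t)
    exact (by fun_prop : Continuous fun v : F => Real.exp (-‖v‖ ^ 2)).measurable.ennreal_ofReal
  refine Pool.Agent.H212R2.KLS.PL volume s h0 h1 _ _ _ (hmeas x) (hmeas z) (hmeas _) ?_
  intro u v
  by_cases hu : x⁻¹ • u ∈ P
  · by_cases hv : z⁻¹ • v ∈ P
    · have hy : 0 < (1 - s) * x + s * z := by positivity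
      have hm : ((1 - s) * x + s * z)⁻¹ • ((1 - s) • u + s • v) ∈ P := by
        have e : ((1 - s) * x + s * z)⁻¹ • ((1 - s) • u + s • v) =
            ((1 - s) * x / ((1 - s) * x + s * z)) • (x⁻¹ • u) +
            (s * z / ((1 - s) * x + s * z)) • (z⁻¹ • v) := by
          rw [smul_add, smul_smul, smul_smul, smul_smul, smul_smul]
          congr 2 <;> field_simp
        rw [e]
        refine hc hu hv (by positivity) (by positivity) ?_
        rw [← add_div, div_self hy.ne']
      rw [indicator_of_mem (show u ∈ {w : F | x⁻¹ • w ∈ P} from hu),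
        indicator_of_mem (show v ∈ {w : F | z⁻¹ • w ∈ P} from hv),
        indicator_of_mem (show (1 - s) • u + s • v ∈
          {w : F | ((1 - s) * x + s * z)⁻¹ • w ∈ P} from hm)]
      rw [ENNReal.ofReal_rpow_of_pos (Real.exp_pos _), ENNReal.ofReal_rpow_of_pos (Real.exp_pos _),
        ← ENNReal.ofReal_mul (by positivity)]
      apply ENNReal.ofReal_le_ofReal
      rw [← Real.exp_mul, ← Real.exp_mul, ← Real.exp_add]
      apply Real.exp_le_exp.2
      have := norm_cvx s h0 h1 u v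
      linarith
    · rw [indicator_of_notMem (show v ∉ {w : F | z⁻¹ • w ∈ P} from hv),
        ENNReal.zero_rpow_of_pos h0, mul_zero]
      exact zero_le'
  · rw [indicator_of_notMem (show u ∉ {w : F | x⁻¹ • w ∈ P} from hu),
      ENNReal.zero_rpow_of_pos h1s, zero_mul]
    exact zero_le'

theorem wG_qc (P : Set F) (hc : Convex ℝ P) (hP : IsClosed P) (x y z : ℝ) (hx : 0 < x)
    (hxy : x ≤ y) (hyz : y ≤ z) :
    min (Pool.Agent.Q76.H2.wG P x) (Pool.Agent.Q76.H2.wG P z) ≤ Pool.Agent.Q76.H2.wG P y := by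
  rcases eq_or_lt_of_le hxy with h | h
  · rw [h]; exact min_le_left _ _
  · rcases eq_or_lt_of_le hyz with h' | h'
    · rw [h']; exact min_le_right _ _
    · have hzx : 0 < z - x := by linarith
      set s := (y - x) / (z - x) with hs
      have h0 : 0 < s := div_pos (by linarith) hzx
      have h1 : s < 1 := by rw [hs, div_lt_one hzx]; linarith
      have hy : (1 - s) * x + s * z = y := by
        have : s * (z - x) = y - x := by rw [hs]; field_simp
        linarith
      have hpl := LI_pl P hc hP x z s hx (by linarith) h0 h1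
      rw [hy, ← LI_eq P hP, ← LI_eq P hP, ← LI_eq P hP] at hpl
      set A := Pool.Agent.Q76.H2.wG P x
      set C := Pool.Agent.Q76.H2.wG P z
      have hA : ENNReal.ofReal (min A C) ≤ ENNReal.ofReal A :=
        ENNReal.ofReal_le_ofReal (min_le_left _ _)
      have hC : ENNReal.ofReal (min A C) ≤ ENNReal.ofReal C :=
        ENNReal.ofReal_le_ofReal (min_le_right _ _)
      have h2 : ENNReal.ofReal (min A C) ≤ ENNReal.ofReal (Pool.Agent.Q76.H2.wG P y) := by
        refine le_trans ?_ hpl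
        calc ENNReal.ofReal (min A C) = ENNReal.ofReal (min A C) ^ ((1 - s) + s) := by
              rw [sub_add_cancel, ENNReal.rpow_one]
          _ = ENNReal.ofReal (min A C) ^ (1 - s) * ENNReal.ofReal (min A C) ^ s :=
              ENNReal.rpow_add_of_nonneg _ _ (by linarith) h0.le
          _ ≤ ENNReal.ofReal A ^ (1 - s) * ENNReal.ofReal C ^ s := by gcongr
      exact (ENNReal.ofReal_le_ofReal_iff (wG_rng P y).1).1 h2

end

theorem aW (F : Type) [NormedAddCommGroup F] [InnerProductSpace ℝ F] [FiniteDimensional ℝ F]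
    [MeasurableSpace F] [BorelSpace F] : Pool.Agent.Q76.H2.S_W F := by
  intro P hc hP
  exact ⟨wG_cont P, wG_rng P, fun x y z hx hxy hyz => wG_qc P hc hP x y z hx hxy hyz⟩

end Pool.Agent.Q63.H2
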